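import Mathlib
import Pool.Agent.H45.R3.Stmts

set_option autoImplicit false

open Finset

namespace Pool.Agent.H36.R3

open Pool.Agent.H45.R3

section
variable {p : ℕ} [hp : Fact p.Prime]

lemma e_add (a b : ZMod p) : e (a + b) = e a * e b := by
  unfold e; exact AddChar.map_add_eq_mul _ _ _

lemma e_zero : e (0 : ZMod p) = 1 := by
  unfold e; exact AddChar.map_zero_eq_one _

lemma e_neg (a : ZMod p) : e (-a) = (starRingEnd ℂ) (e a) := by
  unfold e; exact AddChar.map_neg_eq_conj _ _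

lemma e_sub (a b : ZMod p) : e (a - b) = e a * (starRingEnd ℂ) (e b) := by
  rw [sub_eq_add_neg, e_add, e_neg]

lemma e_sum (a : ZMod p) : ∑ c : ZMod p, e (c * a) = if a = 0 then (p : ℂ) else 0 := by
  unfold e
  have h := AddChar.sum_mulShift (ψ := (ZMod.stdAddChar : AddChar (ZMod p) ℂ)) a
    (ZMod.isPrimitive_stdAddChar p)
  rw [h, ZMod.card]
  split_ifs <;> simp

/-- the correlation at a shift -/
lemma corr (T : Finset (ZMod p × ZMod p)) (ε : ZMod p × ZMod p → ℤ) (j : ZMod p × ZMod p → ZMod p)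
    (h : ∀ y x : ZMod p, ‖∑ m ∈ T, (ε m : ℂ) * e (j m - m.1 * y - m.2 * x)‖ ^ 2 = (p : ℝ))
    (d : ZMod p × ZMod p) (hd : d ≠ 0) :
    ∑ m' ∈ T.filter (fun m' => m' + d ∈ T), ((ε (m' + d) * ε m' : ℤ) : ℂ) * e (j (m' + d) - j m') = 0 := by
  classical
  have hp0 : (p : ℂ) ≠ 0 := by exact_mod_cast hp.out.ne_zero
  set S : ZMod p → ZMod p → ℂ := fun y x => ∑ m ∈ T, (ε m : ℂ) * e (j m - m.1 * y - m.2 * x) with hS
  have h1 : ∀ y x, S y x * (starRingEnd ℂ) (S y x) = (p : ℂ) := by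
    intro y x
    rw [Complex.mul_conj, Complex.normSq_eq_norm_sq, h y x]
    simp
  have h2 : ∑ y : ZMod p, ∑ x : ZMod p, S y x * (starRingEnd ℂ) (S y x) * e (y * d.1 + x * d.2) = 0 := by
    have h3 : ∑ y : ZMod p, ∑ x : ZMod p, S y x * (starRingEnd ℂ) (S y x) * e (y * d.1 + x * d.2)
        = (p : ℂ) * ((∑ y : ZMod p, e (y * d.1)) * ∑ x : ZMod p, e (x * d.2)) := by
      rw [Finset.sum_mul_sum, Finset.mul_sum]
      refine Finset.sum_congr rfl fun y _ => ?_
      rw [Finset.mul_sum]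
      refine Finset.sum_congr rfl fun x _ => ?_
      rw [h1, e_add]
    rw [h3, e_sum, e_sum]
    by_cases hd1 : d.1 = 0
    · by_cases hd2 : d.2 = 0
      · exact absurd (Prod.ext hd1 hd2) hd
      · rw [if_neg hd2]; simp
    · rw [if_neg hd1]; simp
  have h4 : ∑ y : ZMod p, ∑ x : ZMod p, S y x * (starRingEnd ℂ) (S y x) * e (y * d.1 + x * d.2)
      = ∑ m ∈ T, ∑ m' ∈ T, ((ε m : ℂ) * (ε m' : ℂ) * e (j m - j m')) *
        ((∑ y : ZMod p, e (y * (d.1 - m.1 + m'.1))) * ∑ x : ZMod p, e (x * (d.2 - m.2 + m'.2))) := by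
    have h5 : ∀ y x, S y x * (starRingEnd ℂ) (S y x) * e (y * d.1 + x * d.2)
        = ∑ m ∈ T, ∑ m' ∈ T, ((ε m : ℂ) * (ε m' : ℂ) * e (j m - j m')) *
        (e (y * (d.1 - m.1 + m'.1)) * e (x * (d.2 - m.2 + m'.2))) := by
      intro y x
      simp only [hS, map_sum, map_mul, map_intCast]
      rw [Finset.sum_mul_sum, Finset.sum_mul]
      refine Finset.sum_congr rfl fun m _ => ?_
      rw [Finset.sum_mul]
      refine Finset.sum_congr rfl fun m' _ => ?_
      rw [← e_neg]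
      have h6 : e (j m - m.1 * y - m.2 * x) * e (-(j m' - m'.1 * y - m'.2 * x)) * e (y * d.1 + x * d.2)
          = e (j m - j m') * (e (y * (d.1 - m.1 + m'.1)) * e (x * (d.2 - m.2 + m'.2))) := by
        rw [← e_add, ← e_add, ← e_add, ← e_add]
        congr 1
        ring
      calc (ε m : ℂ) * e (j m - m.1 * y - m.2 * x) * ((ε m' : ℂ) * e (-(j m' - m'.1 * y - m'.2 * x)))
            * e (y * d.1 + x * d.2)
          = (ε m : ℂ) * (ε m' : ℂ) * (e (j m - m.1 * y - m.2 * x) * e (-(j m' - m'.1 * y - m'.2 * x))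
            * e (y * d.1 + x * d.2)) := by ring
        _ = _ := by rw [h6]; ring
    simp only [h5]
    have h7 : ∀ y : ZMod p, ∑ x : ZMod p, ∑ m ∈ T, ∑ m' ∈ T, ((ε m : ℂ) * (ε m' : ℂ) * e (j m - j m')) *
        (e (y * (d.1 - m.1 + m'.1)) * e (x * (d.2 - m.2 + m'.2)))
        = ∑ m ∈ T, ∑ m' ∈ T, ∑ x : ZMod p, ((ε m : ℂ) * (ε m' : ℂ) * e (j m - j m')) *
        (e (y * (d.1 - m.1 + m'.1)) * e (x * (d.2 - m.2 + m'.2))) := by
      intro y
      rw [Finset.sum_comm]
      refine Finset.sum_congr rfl fun m _ => ?_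
      rw [Finset.sum_comm]
    simp only [h7]
    rw [Finset.sum_comm]
    refine Finset.sum_congr rfl fun m _ => ?_
    rw [Finset.sum_comm]
    refine Finset.sum_congr rfl fun m' _ => ?_
    rw [Finset.sum_mul_sum, Finset.mul_sum]
    refine Finset.sum_congr rfl fun y _ => ?_
    rw [Finset.mul_sum]
  rw [h4] at h2
  have h8 : ∀ m ∈ T, ∑ m' ∈ T, ((ε m : ℂ) * (ε m' : ℂ) * e (j m - j m')) *
        ((∑ y : ZMod p, e (y * (d.1 - m.1 + m'.1))) * ∑ x : ZMod p, e (x * (d.2 - m.2 + m'.2)))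
      = ∑ m' ∈ T, if m' + d = m then (p : ℂ) ^ 2 * (((ε (m' + d) * ε m' : ℤ) : ℂ) * e (j (m' + d) - j m'))
          else 0 := by
    intro m _
    refine Finset.sum_congr rfl fun m' _ => ?_
    rw [e_sum, e_sum]
    by_cases hm : m' + d = m
    · rw [if_pos hm]
      subst hm
      have h9 : d.1 - (m' + d).1 + m'.1 = 0 := by rw [Prod.fst_add]; ring
      have h10 : d.2 - (m' + d).2 + m'.2 = 0 := by rw [Prod.snd_add]; ring
      rw [if_pos h9, if_pos h10]
      push_cast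
      ring
    · rw [if_neg hm]
      by_cases h9 : d.1 - m.1 + m'.1 = 0
      · by_cases h10 : d.2 - m.2 + m'.2 = 0
        · exfalso
          apply hm
          refine Prod.ext ?_ ?_
          · rw [Prod.fst_add]; linear_combination h9
          · rw [Prod.snd_add]; linear_combination h10
        · rw [if_neg h10]; simp
      · rw [if_neg h9]; simp
  rw [Finset.sum_congr rfl h8, Finset.sum_comm] at h2
  have h11 : ∀ m' ∈ T, (∑ m ∈ T, if m' + d = m then
      (p : ℂ) ^ 2 * (((ε (m' + d) * ε m' : ℤ) : ℂ) * e (j (m' + d) - j m')) else 0)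
      = if m' + d ∈ T then (p : ℂ) ^ 2 * (((ε (m' + d) * ε m' : ℤ) : ℂ) * e (j (m' + d) - j m')) else 0 := by
    intro m' _
    rw [Finset.sum_ite_eq]
  rw [Finset.sum_congr rfl h11, ← Finset.sum_filter, ← Finset.mul_sum] at h2
  rcases mul_eq_zero.mp h2 with h12 | h12
  · exact absurd h12 (pow_ne_zero _ hp0)
  · exact h12

end

/-- LCOM: the support is a line -/
theorem lcom (hvan : VAN) : LCOM := by
  classical
  intro p hp hp2 T ε j hT hε h
  have hppos : 0 < p := hp.out.pos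
  set A : ZMod p × ZMod p → ℤ := fun d => ∑ m' ∈ T.filter (fun m' => m' + d ∈ T), ε (m' + d) * ε m' with hA
  have hdiv : ∀ d, d ≠ 0 → (p : ℤ) ∣ A d := by
    intro d hd
    set k : ZMod p → ℤ := fun v =>
      ∑ m' ∈ (T.filter (fun m' => m' + d ∈ T)).filter (fun m' => j (m' + d) - j m' = v),
        ε (m' + d) * ε m' with hk
    have h1 : ∑ v, (k v : ℂ) * e v = 0 := by
      rw [← corr T ε j h d hd,
        ← Finset.sum_fiberwise (T.filter (fun m' => m' + d ∈ T)) (fun m' => j (m' + d) - j m')]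
      refine Finset.sum_congr rfl fun v _ => ?_
      rw [hk]
      simp only
      rw [Int.cast_sum, Finset.sum_mul]
      refine Finset.sum_congr rfl fun m' hm' => ?_
      rw [(Finset.mem_filter.mp hm').2]
    have h2 := hvan p k h1
    have h3 : A d = ∑ v, k v := by
      rw [hA]
      simp only
      rw [← Finset.sum_fiberwise (T.filter (fun m' => m' + d ∈ T)) (fun m' => j (m' + d) - j m')]
    rw [h3, Finset.sum_congr rfl (fun v _ => h2 v 0), Finset.sum_const, Finset.card_univ, ZMod.card]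
    exact ⟨k 0, by rw [nsmul_eq_mul]⟩
  have hsum : ∑ d, A d = (∑ m ∈ T, ε m) ^ 2 := by
    rw [sq, Finset.sum_mul_sum]
    have h1 : ∀ d, A d = ∑ m' ∈ T, if m' + d ∈ T then ε (m' + d) * ε m' else 0 := by
      intro d
      rw [hA]
      simp only
      rw [Finset.sum_filter]
    simp only [h1]
    rw [Finset.sum_comm, Finset.sum_comm (s := T) (t := T)]
    refine Finset.sum_congr rfl fun m' _ => ?_
    have h2 : ∑ d : ZMod p × ZMod p, (if m' + d ∈ T then ε (m' + d) * ε m' else 0)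
        = ∑ q : ZMod p × ZMod p, if q ∈ T then ε q * ε m' else 0 :=
      Equiv.sum_comp (Equiv.addLeft m') (fun q => if q ∈ T then ε q * ε m' else 0)
    rw [h2, Finset.sum_ite_mem, Finset.univ_inter]
  have hA0 : A 0 = p := by
    rw [hA]
    simp only [add_zero]
    rw [Finset.filter_true_of_mem (fun _ h => h)]
    have h1 : ∀ m ∈ T, ε m * ε m = 1 := by
      intro m hm
      rcases hε m hm with h2 | h2 <;> rw [h2] <;> norm_num
    rw [Finset.sum_congr rfl h1, Finset.sum_const, hT, nsmul_eq_mul, mul_one]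
  have hpS : (p : ℤ) ∣ ∑ m ∈ T, ε m := by
    have h1 : (p : ℤ) ∣ (∑ m ∈ T, ε m) ^ 2 := by
      rw [← hsum, ← Finset.add_sum_erase _ _ (Finset.mem_univ (0 : ZMod p × ZMod p)), hA0]
      refine dvd_add (dvd_refl _) (Finset.dvd_sum fun d hd => hdiv d (Finset.ne_of_mem_erase hd))
    exact (Nat.prime_iff_prime_int.mp hp.out).dvd_of_dvd_pow h1
  have hodd : Odd (∑ m ∈ T, ε m) := by
    have hpodd : Odd (p : ℤ) := by
      exact_mod_cast (hp.out.odd_of_ne_two hp2)
    have h1 : Even ((∑ m ∈ T, ε m) - p) := by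
      have h2 : (∑ m ∈ T, ε m) - p = ∑ m ∈ T, (ε m - 1) := by
        rw [Finset.sum_sub_distrib, Finset.sum_const, hT, nsmul_eq_mul, mul_one]
      rw [h2]
      refine Finset.even_sum _ fun m hm => ?_
      rcases hε m hm with h3 | h3 <;> rw [h3]
      · exact ⟨0, by norm_num⟩
      · exact ⟨-1, by norm_num⟩
    have h3 := h1.add_odd hpodd
    rwa [sub_add_cancel] at h3
  have hle : ∀ m ∈ T, |ε m| = 1 := by
    intro m hm
    rcases hε m hm with h3 | h3 <;> rw [h3] <;> norm_num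
  -- all signs are equal
  obtain ⟨s, hs1, hs⟩ : ∃ s : ℤ, (s = 1 ∨ s = -1) ∧ ∀ m ∈ T, ε m = s := by
    obtain ⟨c, hc⟩ := hpS
    have hc0 : c ≠ 0 := by
      rintro rfl
      rw [hc, mul_zero] at hodd
      exact (Int.not_odd_iff_even.mpr ⟨0, by norm_num⟩) hodd
    have h1 : ∃ s : ℤ, (s = 1 ∨ s = -1) ∧ (p : ℤ) ≤ s * ∑ m ∈ T, ε m := by
      rcases lt_or_gt_of_ne hc0 with h2 | h2
      · refine ⟨-1, Or.inr rfl, ?_⟩
        rw [hc]
        have : (0 : ℤ) ≤ p := by positivity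
        nlinarith
      · refine ⟨1, Or.inl rfl, ?_⟩
        rw [hc]
        have : (0 : ℤ) ≤ p := by positivity
        nlinarith
    obtain ⟨s, hs1, hs2⟩ := h1
    refine ⟨s, hs1, ?_⟩
    have h3 : ∑ m ∈ T, (1 - s * ε m) ≤ 0 := by
      rw [Finset.sum_sub_distrib, Finset.sum_const, hT, nsmul_eq_mul, mul_one, ← Finset.mul_sum]
      linarith
    have h4 : ∀ m ∈ T, 0 ≤ 1 - s * ε m := by
      intro m hm
      rcases hε m hm with h5 | h5 <;> rcases hs1 with h6 | h6 <;> rw [h5, h6] <;> norm_num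
    have h5 : ∑ m ∈ T, (1 - s * ε m) = 0 := le_antisymm h3 (Finset.sum_nonneg h4)
    have h6 := (Finset.sum_eq_zero_iff_of_nonneg h4).mp h5
    intro m hm
    have h7 := h6 m hm
    rcases hε m hm with h8 | h8 <;> rcases hs1 with h9 | h9 <;> rw [h8, h9] at h7 ⊢ <;> norm_num at h7
  have hAc : ∀ d, A d = ((T.filter (fun m' => m' + d ∈ T)).card : ℤ) := by
    intro d
    rw [hA]
    simp only
    rw [Finset.card_eq_sum_ones, Nat.cast_sum]
    refine Finset.sum_congr rfl fun m' hm' => ?_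
    rw [hs _ (Finset.mem_filter.mp hm').1, hs _ (Finset.mem_filter.mp hm').2]
    rcases hs1 with h9 | h9 <;> rw [h9] <;> norm_num
  -- a difference of two elements
  have h2T : 1 < T.card := by rw [hT]; exact hp.out.one_lt
  obtain ⟨m1, hm1, m2, hm2, hne⟩ := Finset.one_lt_card.mp h2T
  refine ⟨m2 - m1, sub_ne_zero.mpr hne.symm, ?_⟩
  have h1 := hdiv (m2 - m1) (sub_ne_zero.mpr hne.symm)
  rw [hAc] at h1
  have h2 : p ∣ (T.filter (fun m' => m' + (m2 - m1) ∈ T)).card := by exact_mod_cast h1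
  have h3 : 0 < (T.filter (fun m' => m' + (m2 - m1) ∈ T)).card := by
    refine Finset.card_pos.mpr ⟨m1, Finset.mem_filter.mpr ⟨hm1, ?_⟩⟩
    rw [add_sub_cancel]
    exact hm2
  have h4 : T.card ≤ (T.filter (fun m' => m' + (m2 - m1) ∈ T)).card := by
    rw [hT]
    exact Nat.le_of_dvd h3 h2
  have h5 := Finset.eq_of_subset_of_card_le (Finset.filter_subset _ T) h4
  intro m hm
  rw [← h5] at hm
  exact (Finset.mem_filter.mp hm).2

end Pool.Agent.H36.R3
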