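import Mathlib
import Pool.Agent.H45.R3.Stmts
import Pool.Agent.H36.R3.LCom

set_option autoImplicit false

open Finset Polynomial NumberField

namespace Pool.Agent.H36.R3

open Pool.Agent.H45.R3

section aux
variable {p : ℕ} [hp : Fact p.Prime]

/-- the main computation -/
theorem ura_aux (K : Type) [Field K] [NumberField K] [IsCyclotomicExtension {p ^ (0 + 1)} ℚ K]
    (hp2 : p ≠ 2) (k k' : ZMod p → ℤ) (B : ℕ)
    (hk : ‖∑ v, (k v : ℂ) * e v‖ ^ 2 = (p : ℝ) ^ B) (hk' : ‖∑ v, (k' v : ℂ) * e v‖ ^ 2 = (p : ℝ) ^ B) :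
    ∃ (ε : ℤ) (r : ZMod p), (ε = 1 ∨ ε = -1) ∧ ∑ v, (k v : ℂ) * e v = ε * e r * ∑ v, (k' v : ℂ) * e v := by
  classical
  have hpp : p.Prime := hp.out
  have hpodd : Odd p := hpp.odd_of_ne_two hp2
  have hp1 : p ^ (0 + 1) = p := by rw [zero_add, pow_one]
  have hnpos : 0 < p ^ (0 + 1) := pow_pos hpp.pos _
  have hneZ : NeZero (p ^ (0 + 1)) := ⟨hnpos.ne'⟩
  have hnodd : Odd (p ^ (0 + 1)) := by rw [hp1]; exact hpodd
  have hp0 : (p : ℝ) ≠ 0 := by exact_mod_cast hpp.ne_zero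
  -- the primitive root
  have he1 : IsPrimitiveRoot (e (1 : ZMod p)) (p ^ (0 + 1)) := by
    rw [hp1]
    unfold e
    have h := ZMod.stdAddChar_coe (N := p) 1
    simp only [Int.cast_one] at h
    rw [h]
    have := Complex.isPrimitiveRoot_exp p hpp.ne_zero
    convert this using 2
    ring
  have hz₀ : IsPrimitiveRoot (IsCyclotomicExtension.zeta (p ^ (0 + 1)) ℚ K) (p ^ (0 + 1)) :=
    IsCyclotomicExtension.zeta_spec _ _ _
  obtain ⟨φ₀⟩ : Nonempty (K →+* ℂ) := inferInstance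
  have hφz₀ := hz₀.map_of_injective φ₀.injective
  obtain ⟨s, hs1, hs2, hs3⟩ := hφz₀.isPrimitiveRoot_iff.mp he1
  obtain ⟨z, hzdef⟩ : ∃ z : K, z = (IsCyclotomicExtension.zeta (p ^ (0 + 1)) ℚ K) ^ s := ⟨_, rfl⟩
  have hz : IsPrimitiveRoot z (p ^ (0 + 1)) := by rw [hzdef]; exact hz₀.pow_of_coprime s hs2
  have hφz : φ₀ z = e (1 : ZMod p) := by rw [hzdef, map_pow, hs3]
  set θ : 𝓞 K := hz.toInteger with hθ
  have hθz : algebraMap (𝓞 K) K θ = z := rfl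
  set ι : 𝓞 K →+* ℂ := φ₀.comp (algebraMap (𝓞 K) K) with hι
  have hinj : Function.Injective ι := φ₀.injective.comp RingOfIntegers.coe_injective
  have hιθ : ι θ = e (1 : ZMod p) := by rw [hι, RingHom.comp_apply, hθz, hφz]
  have hepow : ∀ n : ℕ, (e (1 : ZMod p)) ^ n = e (n : ZMod p) := by
    intro n
    induction n with
    | zero => rw [pow_zero, Nat.cast_zero, e_zero]
    | succ n ih => rw [pow_succ, ih, ← e_add, Nat.cast_succ]
  set E : ZMod p → 𝓞 K := fun a => θ ^ a.val with hE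
  have hιE : ∀ a, ι (E a) = e a := by
    intro a
    rw [hE]
    simp only
    rw [map_pow, hιθ, hepow, ZMod.natCast_zmod_val]
  have hprod : ∀ m : ZMod p → ℤ, ‖∑ v, (m v : ℂ) * e v‖ ^ 2 = (p : ℝ) ^ B →
      (∑ v, (m v : 𝓞 K) * E v) * (∑ v, (m v : 𝓞 K) * E (-v)) = (p : 𝓞 K) ^ B := by
    intro m hm
    apply hinj
    rw [map_mul, map_sum, map_sum, map_pow, map_natCast]
    simp only [map_mul, hιE, map_intCast]
    have h1 : ∑ v, (m v : ℂ) * e (-v) = (starRingEnd ℂ) (∑ v, (m v : ℂ) * e v) := by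
      rw [map_sum]
      refine Finset.sum_congr rfl fun v _ => ?_
      rw [map_mul, map_intCast, e_neg]
    rw [h1, Complex.mul_conj, Complex.normSq_eq_norm_sq, hm]
    push_cast
    rfl
  -- absolute values at all embeddings
  have hφ : ∀ (φ : K →+* ℂ) (m : ZMod p → ℤ), ‖∑ v, (m v : ℂ) * e v‖ ^ 2 = (p : ℝ) ^ B →
      ‖φ (algebraMap (𝓞 K) K (∑ v, (m v : 𝓞 K) * E v))‖ ^ 2 = (p : ℝ) ^ B := by
    intro φ m hm
    have h1 := congrArg (fun a => φ (algebraMap (𝓞 K) K a)) (hprod m hm)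
    simp only [map_mul, map_pow, map_natCast] at h1
    have hφz1 : (φ z) ^ p = 1 := by
      rw [← map_pow, ← hp1, hz.pow_eq_one, map_one]
    have h2 : φ (algebraMap (𝓞 K) K (∑ v, (m v : 𝓞 K) * E (-v)))
        = (starRingEnd ℂ) (φ (algebraMap (𝓞 K) K (∑ v, (m v : 𝓞 K) * E v))) := by
      simp only [map_sum, map_mul, map_intCast, hE, map_pow, hθz]
      refine Finset.sum_congr rfl fun v _ => ?_
      congr 1
      have h3 := Pool.Agent.H56.RDS.conj_pow_root hpp.pos hφz1 v.val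
      rw [map_pow] at h3
      rw [← h3]
      have h4 : ∀ a b : ℕ, (a : ZMod p) = b → (φ z) ^ a = (φ z) ^ b := by
        intro a b hab
        have h5 : a ≡ b [MOD p] := (ZMod.natCast_eq_natCast_iff _ _ _).mp hab
        rw [pow_eq_pow_mod a hφz1, pow_eq_pow_mod b hφz1, h5]
      apply h4
      rw [ZMod.natCast_zmod_val, Nat.cast_mul, ZMod.natCast_zmod_val, Nat.cast_sub hpp.one_le,
        ZMod.natCast_self]
      ring
    rw [h2, Complex.mul_conj, Complex.normSq_eq_norm_sq] at h1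
    exact_mod_cast h1
  set AI : 𝓞 K := ∑ v, (k v : 𝓞 K) * E v with hAI
  set BI : 𝓞 K := ∑ v, (k' v : 𝓞 K) * E v with hBI
  have hne : ∀ (m : ZMod p → ℤ), ‖∑ v, (m v : ℂ) * e v‖ ^ 2 = (p : ℝ) ^ B →
      ∀ φ : K →+* ℂ, φ (algebraMap (𝓞 K) K (∑ v, (m v : 𝓞 K) * E v)) ≠ 0 := by
    intro m hm φ h0
    have h1 := hφ φ m hm
    rw [h0, norm_zero] at h1
    have h2 : (p : ℝ) ^ B ≠ 0 := pow_ne_zero _ hp0
    apply h2
    rw [← h1]; norm_num
  obtain ⟨r, N, hN, hrN, hr⟩ : ∃ r : K, ∃ N : ℕ, 0 < N ∧ r ^ N = 1 ∧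
      algebraMap (𝓞 K) K AI = r * algebraMap (𝓞 K) K BI := by
    obtain ⟨i1, hi1⟩ := Pool.Agent.H56.RDS.assoc_pow (k := 0) K hz AI _ B (hprod k hk)
    obtain ⟨i2, hi2⟩ := Pool.Agent.H56.RDS.assoc_pow (k := 0) K hz BI _ B (hprod k' hk')
    have key : ∀ (m m' : ZMod p → ℤ), ‖∑ v, (m v : ℂ) * e v‖ ^ 2 = (p : ℝ) ^ B →
        ‖∑ v, (m' v : ℂ) * e v‖ ^ 2 = (p : ℝ) ^ B → ∀ c : 𝓞 K,
        (∑ v, (m v : 𝓞 K) * E v) = (∑ v, (m' v : 𝓞 K) * E v) * c →
        ∃ N : ℕ, 0 < N ∧ (algebraMap (𝓞 K) K c) ^ N = 1 := by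
      intro m m' hm hm' c hc
      suffices hsuf : ∀ φ : K →+* ℂ, ‖φ (algebraMap (𝓞 K) K c)‖ = 1 by
        obtain ⟨N, hN, hcN⟩ := NumberField.Embeddings.pow_eq_one_of_norm_eq_one K ℂ
          (x := algebraMap (𝓞 K) K c) c.isIntegral_coe hsuf
        exact ⟨N, hN, hcN⟩
      intro φ
      have h1 := hφ φ m hm
      have h2 := hφ φ m' hm'
      rw [hc, map_mul, map_mul, norm_mul, mul_pow, h2] at h1
      have h4 : (p : ℝ) ^ B ≠ 0 := pow_ne_zero _ hp0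
      have h3 : ‖φ (algebraMap (𝓞 K) K c)‖ ^ 2 = 1 := mul_left_cancel₀ h4 (by rw [h1, mul_one])
      exact (pow_eq_one_iff_of_nonneg (norm_nonneg _) two_ne_zero).mp h3
    rcases le_total i1 i2 with hle | hle
    · have hd : AI ∣ BI := (hi1.dvd.trans (pow_dvd_pow _ hle)).trans hi2.symm.dvd
      obtain ⟨c, hc⟩ := hd
      obtain ⟨N, hN, hcN⟩ := key k' k hk' hk c hc
      have hc0 : algebraMap (𝓞 K) K c ≠ 0 := by
        intro h0
        rw [h0, zero_pow hN.ne'] at hcN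
        exact zero_ne_one hcN
      refine ⟨(algebraMap (𝓞 K) K c)⁻¹, N, hN, by rw [inv_pow, hcN, inv_one], ?_⟩
      rw [hc, map_mul, mul_comm (algebraMap (𝓞 K) K AI), ← mul_assoc, inv_mul_cancel₀ hc0, one_mul]
    · have hd : BI ∣ AI := (hi2.dvd.trans (pow_dvd_pow _ hle)).trans hi1.symm.dvd
      obtain ⟨c, hc⟩ := hd
      obtain ⟨N, hN, hcN⟩ := key k k' hk hk' c hc
      exact ⟨algebraMap (𝓞 K) K c, N, hN, hcN, by rw [hc, map_mul, mul_comm]⟩
  obtain ⟨ε, m, hε, hrm⟩ : ∃ ε : ℤ, ∃ m : ℕ, (ε = 1 ∨ ε = -1) ∧ r = (ε : K) * z ^ m := by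
    have hfin : IsOfFinOrder r := isOfFinOrder_iff_pow_eq_one.mpr ⟨N, hN, hrN⟩
    obtain ⟨m, _, hm⟩ := hz.exists_pow_or_neg_mul_pow_of_isOfFinOrder hnodd hfin
    rcases hm with hm | hm
    · exact ⟨1, m, Or.inl rfl, by rw [Int.cast_one, one_mul]; exact hm⟩
    · exact ⟨-1, m, Or.inr rfl, by rw [hm]; push_cast; ring⟩
  refine ⟨ε, (m : ZMod p), hε, ?_⟩
  have h1 := congrArg φ₀ hr
  rw [map_mul, hrm, map_mul, map_intCast, map_pow, hφz, hepow] at h1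
  have h2 : φ₀ (algebraMap (𝓞 K) K AI) = ∑ v, (k v : ℂ) * e v := by
    have : φ₀ (algebraMap (𝓞 K) K AI) = ι AI := rfl
    rw [this, hAI, map_sum]
    simp only [map_mul, hιE, map_intCast]
  have h3 : φ₀ (algebraMap (𝓞 K) K BI) = ∑ v, (k' v : ℂ) * e v := by
    have : φ₀ (algebraMap (𝓞 K) K BI) = ι BI := rfl
    rw [this, hBI, map_sum]
    simp only [map_mul, hιE, map_intCast]
  rw [← h2, ← h3, h1]

end aux

/-- URA: elements of the same absolute value differ by a root of unity -/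
theorem ura : URA := by
  intro p hp hp2 k k' B hk hk'
  have h1 : @IsCyclotomicExtension {p ^ (0 + 1)} ℚ (CyclotomicField (p ^ (0 + 1)) ℚ) _ _
      (CyclotomicField.algebra _ _) := inferInstance
  have h2 : (CyclotomicField.algebra (p ^ (0 + 1)) ℚ :
      Algebra ℚ (CyclotomicField (p ^ (0 + 1)) ℚ)) = DivisionRing.toRatAlgebra :=
    Subsingleton.elim _ _
  rw [h2] at h1
  exact ura_aux (CyclotomicField (p ^ (0 + 1)) ℚ) hp2 k k' B hk hk'

end Pool.Agent.H36.R3
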