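import Mathlib
import Pool.Agent.H45.R3.Stmts
import Pool.Agent.H36.R3.Ura

set_option autoImplicit false

open Finset

namespace Pool.Agent.H36.R3

open Pool.Agent.H45.R3

section
variable {p : ℕ} [hp : Fact p.Prime]

lemma norm_e (a : ZMod p) : ‖e a‖ = 1 := by
  unfold e; exact AddChar.norm_apply _ _

/-- inversion of the Walsh transform -/
lemma inversion (g : ZMod p → ZMod p → ZMod p) (y x : ZMod p) :
    ∑ t, ∑ c, W g t c * e (-(t * y) - c * x) = (p : ℂ) ^ 2 * e (g y x) := by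
  classical
  have h1 : ∀ t c, W g t c * e (-(t * y) - c * x)
      = ∑ y', ∑ x', e (g y' x') * (e (t * (y' - y)) * e (c * (x' - x))) := by
    intro t c
    unfold W
    rw [Finset.sum_mul]
    refine Finset.sum_congr rfl fun y' _ => ?_
    rw [Finset.sum_mul]
    refine Finset.sum_congr rfl fun x' _ => ?_
    rw [← e_add, ← e_add, ← e_add]
    congr 1
    ring
  have h2 : ∑ t, ∑ c, W g t c * e (-(t * y) - c * x)
      = ∑ y', ∑ x', e (g y' x') * ((∑ t, e (t * (y' - y))) * ∑ c, e (c * (x' - x))) := by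
    have h3 : ∀ t, ∑ c, W g t c * e (-(t * y) - c * x)
        = ∑ y', ∑ x', ∑ c, e (g y' x') * (e (t * (y' - y)) * e (c * (x' - x))) := by
      intro t
      rw [Finset.sum_congr rfl (fun c _ => h1 t c), Finset.sum_comm]
      refine Finset.sum_congr rfl fun y' _ => ?_
      rw [Finset.sum_comm]
    rw [Finset.sum_congr rfl (fun t _ => h3 t), Finset.sum_comm]
    refine Finset.sum_congr rfl fun y' _ => ?_
    rw [Finset.sum_comm]
    refine Finset.sum_congr rfl fun x' _ => ?_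
    rw [Finset.sum_mul_sum, Finset.mul_sum]
    refine Finset.sum_congr rfl fun t _ => ?_
    rw [Finset.mul_sum]
  rw [h2]
  have h4 : ∀ y' x', e (g y' x') * ((∑ t, e (t * (y' - y))) * ∑ c, e (c * (x' - x)))
      = if x' = x then (if y' = y then (p : ℂ) ^ 2 * e (g y x) else 0) else 0 := by
    intro y' x'
    rw [e_sum, e_sum]
    by_cases hx : x' = x
    · by_cases hy : y' = y
      · rw [if_pos hx, if_pos hy, if_pos (sub_eq_zero.mpr hx), if_pos (sub_eq_zero.mpr hy), hx, hy]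
        ring
      · rw [if_pos hx, if_neg hy, if_neg (sub_ne_zero.mpr hy)]
        ring
    · rw [if_neg hx, if_neg (sub_ne_zero.mpr hx)]
      ring
  simp only [h4]
  simp

/-- Parseval -/
lemma parseval (g : ZMod p → ZMod p → ZMod p) :
    ∑ t, ∑ c, ‖W g t c‖ ^ 2 = (p : ℝ) ^ 4 := by
  have h1 : (∑ t, ∑ c, ((‖W g t c‖ ^ 2 : ℝ) : ℂ)) = (p : ℂ) ^ 4 := by
    have h2 : ∀ t c, ((‖W g t c‖ ^ 2 : ℝ) : ℂ)
        = ∑ y, ∑ x, (W g t c * e (-(t * y) - c * x)) * (starRingEnd ℂ) (e (g y x)) := by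
      intro t c
      rw [← Complex.normSq_eq_norm_sq, ← Complex.mul_conj]
      nth_rewrite 2 [W]
      rw [map_sum, Finset.mul_sum]
      refine Finset.sum_congr rfl fun y _ => ?_
      rw [map_sum, Finset.mul_sum]
      refine Finset.sum_congr rfl fun x _ => ?_
      rw [mul_assoc, ← e_neg, ← e_neg, ← e_add]
      congr 2
      ring
    have h3 : ∀ t, ∑ c, ∑ y, ∑ x, (W g t c * e (-(t * y) - c * x)) * (starRingEnd ℂ) (e (g y x))
        = ∑ y, ∑ x, ∑ c, (W g t c * e (-(t * y) - c * x)) * (starRingEnd ℂ) (e (g y x)) := by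
      intro t
      rw [Finset.sum_comm]
      refine Finset.sum_congr rfl fun y _ => ?_
      rw [Finset.sum_comm]
    rw [Finset.sum_congr rfl (fun t _ => Finset.sum_congr rfl (fun c _ => h2 t c)),
      Finset.sum_congr rfl (fun t _ => h3 t), Finset.sum_comm]
    have h4 : ∀ y, ∑ t, ∑ x, ∑ c, (W g t c * e (-(t * y) - c * x)) * (starRingEnd ℂ) (e (g y x))
        = ∑ x : ZMod p, (p : ℂ) ^ 2 := by
      intro y
      rw [Finset.sum_comm]
      refine Finset.sum_congr rfl fun x _ => ?_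
      have h5 : ∑ t, ∑ c, (W g t c * e (-(t * y) - c * x)) * (starRingEnd ℂ) (e (g y x))
          = (∑ t, ∑ c, W g t c * e (-(t * y) - c * x)) * (starRingEnd ℂ) (e (g y x)) := by
        rw [Finset.sum_mul]
        refine Finset.sum_congr rfl fun t _ => ?_
        rw [Finset.sum_mul]
      rw [h5, inversion, mul_assoc, Complex.mul_conj, Complex.normSq_eq_norm_sq, norm_e]
      simp
    rw [Finset.sum_congr rfl (fun y _ => h4 y)]
    simp only [Finset.sum_const, Finset.card_univ, ZMod.card, nsmul_eq_mul]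
    ring
  exact_mod_cast h1

/-- a Walsh coefficient as an integral combination of roots of unity -/
lemma W_eq (g : ZMod p → ZMod p → ZMod p) (t c : ZMod p) :
    ∃ k : ZMod p → ℤ, W g t c = ∑ v, (k v : ℂ) * e v := by
  classical
  refine ⟨fun v => ((univ.filter fun q : ZMod p × ZMod p => g q.1 q.2 + t * q.1 + c * q.2 = v).card : ℤ), ?_⟩
  have h1 : W g t c = ∑ q : ZMod p × ZMod p, e (g q.1 q.2 + t * q.1 + c * q.2) := by
    unfold W
    rw [← Finset.univ_product_univ, Finset.sum_product]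
  rw [h1, ← Finset.sum_fiberwise univ (fun q : ZMod p × ZMod p => g q.1 q.2 + t * q.1 + c * q.2)]
  refine Finset.sum_congr rfl fun v _ => ?_
  rw [Finset.sum_congr rfl (g := fun _ => e v) (fun q hq => by rw [(Finset.mem_filter.mp hq).2]),
    Finset.sum_const, nsmul_eq_mul]
  push_cast
  rfl

end

/-- LSUP: the support of the Walsh transform of a plateaued function on the plane -/
theorem lsup (hura : URA) : LSUP := by
  classical
  intro p hp hp2 g hgood
  have hp0 : (p : ℝ) ≠ 0 := by exact_mod_cast hp.out.ne_zero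
  set T : Finset (ZMod p × ZMod p) := univ.filter (fun m => W g m.1 m.2 ≠ 0) with hT
  have hmem : ∀ m, m ∈ T ↔ W g m.1 m.2 ≠ 0 := by
    intro m
    rw [hT, Finset.mem_filter]
    exact ⟨fun h => h.2, fun h => ⟨Finset.mem_univ _, h⟩⟩
  have hnorm : ∀ m ∈ T, ‖W g m.1 m.2‖ ^ 2 = (p : ℝ) ^ 3 := by
    intro m hm
    rcases hgood m.1 m.2 with h | h
    · exact absurd h ((hmem m).mp hm)
    · exact h
  have hcard : T.card = p := by
    have h1 := parseval g
    have h2 : ∑ t, ∑ c, ‖W g t c‖ ^ 2 = ∑ m : ZMod p × ZMod p, ‖W g m.1 m.2‖ ^ 2 := by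
      rw [← Finset.univ_product_univ, Finset.sum_product]
    have h3 : ∑ m : ZMod p × ZMod p, ‖W g m.1 m.2‖ ^ 2 = ∑ m ∈ T, ‖W g m.1 m.2‖ ^ 2 := by
      symm
      refine Finset.sum_subset (Finset.subset_univ _) ?_
      intro m _ hm
      have : W g m.1 m.2 = 0 := by
        by_contra h
        exact hm ((hmem m).mpr h)
      rw [this, norm_zero]
      norm_num
    rw [h2, h3, Finset.sum_congr rfl hnorm, Finset.sum_const, nsmul_eq_mul] at h1
    have h4 : (T.card : ℝ) = p := by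
      have h5 : (p : ℝ) ^ 3 ≠ 0 := pow_ne_zero _ hp0
      refine mul_right_cancel₀ h5 ?_
      rw [h1]; ring
    exact_mod_cast h4
  obtain ⟨m0, hm0⟩ : T.Nonempty := by
    rw [← Finset.card_pos, hcard]; exact hp.out.pos
  have hex : ∀ m : ZMod p × ZMod p, ∃ q : ℤ × ZMod p, m ∈ T → (q.1 = 1 ∨ q.1 = -1) ∧
      W g m.1 m.2 = (q.1 : ℂ) * e q.2 * W g m0.1 m0.2 := by
    intro m
    by_cases hm : m ∈ T
    · obtain ⟨k, hk⟩ := W_eq g m.1 m.2
      obtain ⟨k', hk'⟩ := W_eq g m0.1 m0.2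
      obtain ⟨ε, r, hε, hr⟩ := hura p hp2 k k' 3 (by rw [← hk]; exact hnorm m hm)
        (by rw [← hk']; exact hnorm m0 hm0)
      refine ⟨(ε, r), fun _ => ⟨hε, ?_⟩⟩
      rw [hk, hk']
      exact hr
    · exact ⟨(0, 0), fun h => absurd h hm⟩
  choose q hq using hex
  refine ⟨T, fun m => (q m).1, fun m => (q m).2, hcard, hmem, fun m hm => (hq m hm).1, ?_⟩
  intro y x
  have h1 := inversion g y x
  have h2 : ∑ t, ∑ c, W g t c * e (-(t * y) - c * x)
      = ∑ m : ZMod p × ZMod p, W g m.1 m.2 * e (-(m.1 * y) - m.2 * x) := by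
    rw [← Finset.univ_product_univ, Finset.sum_product]
  have h3 : ∑ m : ZMod p × ZMod p, W g m.1 m.2 * e (-(m.1 * y) - m.2 * x)
      = ∑ m ∈ T, W g m.1 m.2 * e (-(m.1 * y) - m.2 * x) := by
    symm
    refine Finset.sum_subset (Finset.subset_univ _) ?_
    intro m _ hm
    have : W g m.1 m.2 = 0 := by
      by_contra h
      exact hm ((hmem m).mpr h)
    rw [this, zero_mul]
  have h4 : ∑ m ∈ T, W g m.1 m.2 * e (-(m.1 * y) - m.2 * x)
      = (∑ m ∈ T, ((q m).1 : ℂ) * e ((q m).2 - m.1 * y - m.2 * x)) * W g m0.1 m0.2 := by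
    rw [Finset.sum_mul]
    refine Finset.sum_congr rfl fun m hm => ?_
    rw [(hq m hm).2]
    have h5 : e ((q m).2 - m.1 * y - m.2 * x) = e (q m).2 * e (-(m.1 * y) - m.2 * x) := by
      rw [← e_add]
      congr 1
      ring
    rw [h5]
    ring
  rw [h2, h3, h4] at h1
  have h5 := congrArg (fun w => ‖w‖ ^ 2) h1
  simp only [norm_mul, mul_pow, norm_pow, norm_e, Complex.norm_natCast] at h5
  rw [hnorm m0 hm0] at h5
  have h6 : (p : ℝ) ^ 3 ≠ 0 := pow_ne_zero _ hp0
  refine mul_right_cancel₀ h6 ?_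
  rw [h5]; ring

end Pool.Agent.H36.R3
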