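import Mathlib
import Pool.Agent.H45.R3.Stmts
import Pool.Agent.H36.R3.LCom

set_option autoImplicit false

open Finset Polynomial NumberField

namespace Pool.Agent.H36.R3

open Pool.Agent.H45.R3

/-! ## Power sums of a polynomial divisible by a power of `X - 1` -/

section poly
variable {R : Type} [CommRing R]

/-- the operator `X d/dX` -/
noncomputable def Tl (R : Type) [CommRing R] : R[X] →ₗ[R] R[X] :=
  (LinearMap.mulLeft R (X : R[X])).comp (derivative (R := R))

lemma Tl_apply (Q : R[X]) : Tl R Q = X * derivative Q := rfl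

lemma Tl_X_pow (n : ℕ) : Tl R (X ^ n) = (n : R) • X ^ n := by
  rw [Tl_apply, derivative_X_pow]
  rcases n with _ | n
  · simp
  · rw [Nat.add_sub_cancel, smul_eq_C_mul]
    rw [pow_succ]
    ring

lemma Tl_pow_X_pow (n i : ℕ) : (Tl R ^ i) (X ^ n) = ((n : R) ^ i) • X ^ n := by
  induction i with
  | zero => simp
  | succ i ih =>
    rw [pow_succ', Module.End.mul_apply, ih, map_smul, Tl_X_pow, smul_smul, pow_succ]

lemma dvd_Tl (r : ℕ) (Q : R[X]) (h : (X - 1) ^ (r + 1) ∣ Q) : (X - 1) ^ r ∣ Tl R Q := by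
  obtain ⟨S, rfl⟩ := h
  rw [Tl_apply, derivative_mul, derivative_pow]
  refine Dvd.dvd.mul_left (dvd_add ?_ ?_) _
  · rw [Nat.add_sub_cancel]
    exact ((dvd_refl _).mul_left _).mul_right _ |>.mul_right _
  · exact (pow_dvd_pow _ (Nat.le_succ r)).mul_right _

lemma dvd_Tl_pow (i r : ℕ) (Q : R[X]) (h : (X - 1) ^ (r + i) ∣ Q) : (X - 1) ^ r ∣ (Tl R ^ i) Q := by
  induction i generalizing r with
  | zero => simpa using h
  | succ i ih =>
    rw [pow_succ', Module.End.mul_apply]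
    exact dvd_Tl r _ (ih (r + 1) (by rwa [add_assoc, add_comm 1 i]))

lemma eval_Tl_pow (i r : ℕ) (hi : i < r) (Q : R[X]) (h : (X - 1) ^ r ∣ Q) :
    eval 1 ((Tl R ^ i) Q) = 0 := by
  obtain ⟨t, rfl⟩ := Nat.exists_eq_add_of_lt hi
  have h1 : (X - 1) ^ (t + 1) ∣ (Tl R ^ i) Q := dvd_Tl_pow i (t + 1) Q (by
    rwa [show t + 1 + i = i + t + 1 by ring])
  obtain ⟨S, hS⟩ := h1
  rw [hS, eval_mul, eval_pow]
  simp

lemma eval_sum_pow {ι : Type} (s : Finset ι) (n : ι → ℕ) (i : ℕ) :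
    eval 1 ((Tl R ^ i) (∑ y ∈ s, X ^ n y)) = ∑ y ∈ s, (n y : R) ^ i := by
  rw [map_sum, eval_finsetSum]
  refine Finset.sum_congr rfl fun y _ => ?_
  rw [Tl_pow_X_pow, eval_smul, eval_pow, eval_X, one_pow, smul_eq_mul, mul_one]

end poly

section aux
variable {p : ℕ} [hp : Fact p.Prime]

lemma cyclo_mod : cyclotomic (p ^ (0 + 1)) (ZMod p) = (X - 1) ^ (p - 1) := by
  have h := cyclotomic_mul_prime_pow_eq (ZMod p) (p := p) (m := 1)
    (by rw [Nat.dvd_one]; exact hp.out.ne_one) (k := 1) one_pos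
  rw [cyclotomic_one, mul_one, pow_one, Nat.sub_self, pow_zero] at h
  rw [zero_add, pow_one]
  exact h

/-- divisibility in the ring of integers gives divisibility modulo `p` -/
lemma dvd_mod (K : Type) [Field K] [NumberField K] [IsCyclotomicExtension {p ^ (0 + 1)} ℚ K]
    {z : K} (hz : IsPrimitiveRoot z (p ^ (0 + 1))) (P : ℤ[X]) (r : ℕ) (hr : r ≤ p - 1)
    (h : (hz.toInteger - 1) ^ r ∣ aeval hz.toInteger P) :
    (X - 1) ^ r ∣ P.map (Int.castRingHom (ZMod p)) := by
  have hne : NeZero (p ^ (0 + 1)) := ⟨pow_ne_zero _ hp.out.ne_zero⟩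
  obtain ⟨β, hβ⟩ := h
  obtain ⟨B, hB⟩ := hz.integralPowerBasis.exists_eq_aeval' β
  rw [hz.integralPowerBasis_gen] at hB
  have h1 : aeval hz.toInteger (P - (X - 1) ^ r * B) = 0 := by
    rw [map_sub, map_mul, map_pow, map_sub, aeval_X, map_one, ← hB, hβ, sub_self]
  have h2 : aeval z (P - (X - 1) ^ r * B) = 0 := by
    have h3 := congrArg (algebraMap (𝓞 K) K) h1
    rw [map_zero, ← aeval_algebraMap_apply] at h3
    exact h3
  have h3 : cyclotomic (p ^ (0 + 1)) ℤ ∣ P - (X - 1) ^ r * B := by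
    rw [cyclotomic_eq_minpoly hz (pow_pos hp.out.pos _)]
    exact minpoly.isIntegrallyClosed_dvd (hz.isIntegral (pow_pos hp.out.pos _)) h2
  obtain ⟨C, hC⟩ := h3
  have h4 : P.map (Int.castRingHom (ZMod p)) = (X - 1) ^ r * B.map (Int.castRingHom (ZMod p))
      + (X - 1) ^ (p - 1) * C.map (Int.castRingHom (ZMod p)) := by
    have h5 : P = (X - 1) ^ r * B + cyclotomic (p ^ (0 + 1)) ℤ * C := by
      rw [← hC]; ring
    rw [h5, Polynomial.map_add, Polynomial.map_mul, Polynomial.map_mul, map_cyclotomic, cyclo_mod,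
      Polynomial.map_pow, Polynomial.map_sub, Polynomial.map_X, Polynomial.map_one]
  rw [h4]
  exact dvd_add (Dvd.intro _ rfl) ((pow_dvd_pow _ hr).mul_right _)

/-- the main computation -/
theorem val_aux (K : Type) [Field K] [NumberField K] [IsCyclotomicExtension {p ^ (0 + 1)} ℚ K]
    (hp2 : p ≠ 2) (f : ZMod p → ZMod p → ZMod p) (t : ZMod p) (hgood : ∀ c, Good f t c) :
    (∀ x, ∀ j, j < (p - 1) / 2 → ∑ y, (f y x + t * y) ^ j = 0) ∧
    (∀ x x', ∑ y, (f y x + t * y) ^ ((p - 1) / 2) = ∑ y, (f y x' + t * y) ^ ((p - 1) / 2)) := by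
  classical
  have hpp : p.Prime := hp.out
  have hpodd : Odd p := hpp.odd_of_ne_two hp2
  have hp1 : p ^ (0 + 1) = p := by rw [zero_add, pow_one]
  have hnpos : 0 < p ^ (0 + 1) := pow_pos hpp.pos _
  have hneZ : NeZero (p ^ (0 + 1)) := ⟨hnpos.ne'⟩
  obtain ⟨J, hJ⟩ : ∃ J, p = 2 * J + 1 := hpodd
  have hJ2 : (p - 1) / 2 = J := by omega
  have hp3 : 3 ≤ p := by
    have := hpp.two_le
    omega
  have hJ1 : 1 ≤ J := by omega
  rw [hJ2]
  -- the primitive root
  have he1 : IsPrimitiveRoot (e (1 : ZMod p)) (p ^ (0 + 1)) := by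
    rw [hp1]
    unfold e
    have h := ZMod.stdAddChar_coe (N := p) 1
    simp only [Int.cast_one] at h
    rw [h]
    have := Complex.isPrimitiveRoot_exp p hpp.ne_zero
    convert this using 2
    ring
  have hz₀ : IsPrimitiveRoot (IsCyclotomicExtension.zeta (p ^ (0 + 1)) ℚ K) (p ^ (0 + 1)) :=
    IsCyclotomicExtension.zeta_spec _ _ _
  obtain ⟨φ₀⟩ : Nonempty (K →+* ℂ) := inferInstance
  have hφz₀ := hz₀.map_of_injective φ₀.injective
  obtain ⟨s, hs1, hs2, hs3⟩ := hφz₀.isPrimitiveRoot_iff.mp he1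
  obtain ⟨z, hzdef⟩ : ∃ z : K, z = (IsCyclotomicExtension.zeta (p ^ (0 + 1)) ℚ K) ^ s := ⟨_, rfl⟩
  have hz : IsPrimitiveRoot z (p ^ (0 + 1)) := by rw [hzdef]; exact hz₀.pow_of_coprime s hs2
  have hφz : φ₀ z = e (1 : ZMod p) := by rw [hzdef, map_pow, hs3]
  set θ : 𝓞 K := hz.toInteger with hθ
  have hθz : algebraMap (𝓞 K) K θ = z := rfl
  set ι : 𝓞 K →+* ℂ := φ₀.comp (algebraMap (𝓞 K) K) with hι
  have hinj : Function.Injective ι := φ₀.injective.comp RingOfIntegers.coe_injective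
  have hιθ : ι θ = e (1 : ZMod p) := by rw [hι, RingHom.comp_apply, hθz, hφz]
  have hepow : ∀ n : ℕ, (e (1 : ZMod p)) ^ n = e (n : ZMod p) := by
    intro n
    induction n with
    | zero => rw [pow_zero, Nat.cast_zero, e_zero]
    | succ n ih => rw [pow_succ, ih, ← e_add, Nat.cast_succ]
  set E : ZMod p → 𝓞 K := fun a => θ ^ a.val with hE
  have hιE : ∀ a, ι (E a) = e a := by
    intro a
    rw [hE]
    simp only
    rw [map_pow, hιθ, hepow, ZMod.natCast_zmod_val]
  -- the automorphism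
  obtain ⟨σ, hσ⟩ : ∃ σ : Gal(K/ℚ), σ z = z ^ (p - 1) := by
    have hcop : Nat.Coprime (p - 1) (p ^ (0 + 1)) := by
      rw [hp1]
      exact (Nat.coprime_self_sub_left hpp.one_le).mpr (Nat.coprime_one_left p)
    refine ⟨(IsCyclotomicExtension.Rat.galEquivZMod (p ^ (0 + 1)) K).symm
      (ZMod.unitOfCoprime (p - 1) hcop), ?_⟩
    rw [IsCyclotomicExtension.Rat.galEquivZMod_apply_of_pow_eq (p ^ (0 + 1)) K _ hz.pow_eq_one,
      MulEquiv.apply_symm_apply, ZMod.coe_unitOfCoprime, ZMod.val_natCast,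
      ← pow_eq_pow_mod _ hz.pow_eq_one]
  set σI : 𝓞 K →+* 𝓞 K := RingOfIntegers.mapRingHom (σ : K →+* K) with hσI
  have hσθ : σI θ = θ ^ (p - 1) := by
    apply RingOfIntegers.coe_injective
    rw [map_pow]
    exact hσ
  have hσE : ∀ a, σI (E a) = E (-a) := by
    intro a
    apply hinj
    rw [hιE, hE]
    simp only
    rw [map_pow, hσθ, map_pow, map_pow, hιθ, ← pow_mul, hepow]
    congr 1
    rw [Nat.cast_mul, ZMod.natCast_zmod_val, Nat.cast_sub hpp.one_le, ZMod.natCast_self]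
    ring
  set π : 𝓞 K := θ - 1 with hπ
  have hπprime : Prime π := hz.zeta_sub_one_prime
  have hπσ : π ∣ σI π := by
    rw [hπ, map_sub, hσθ, map_one]
    have := sub_dvd_pow_sub_pow θ 1 (p - 1)
    rwa [one_pow] at this
  have hσdvd : ∀ (i : ℕ) (α : 𝓞 K), π ^ i ∣ α → π ^ i ∣ σI α := by
    rintro i α ⟨β, rfl⟩
    rw [map_mul, map_pow]
    exact (pow_dvd_pow_of_dvd hπσ i).mul_right _
  have hfin : Module.finrank ℚ K = 2 * J := by
    rw [IsCyclotomicExtension.finrank (n := p ^ (0 + 1)) K (cyclotomic.irreducible_rat hnpos),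
      Nat.totient_prime_pow hpp (by norm_num)]
    simp
    omega
  have hpassoc : Associated (p : 𝓞 K) (π ^ (2 * J)) := by
    have := Pool.Agent.H56.RDS.assoc_p (k := 0) K hz
    rwa [hfin] at this
  -- the Walsh coefficients
  set WI : ZMod p → 𝓞 K := fun c => ∑ y, ∑ x, E (f y x + t * y + c * x) with hWI
  set WJ : ZMod p → 𝓞 K := fun c => ∑ y, ∑ x, E (-(f y x + t * y + c * x)) with hWJ
  have hιWI : ∀ c, ι (WI c) = W f t c := by
    intro c
    simp only [hWI, map_sum, hιE, W]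
  have hιWJ : ∀ c, ι (WJ c) = (starRingEnd ℂ) (W f t c) := by
    intro c
    simp only [hWJ, map_sum, hιE, W, e_neg]
  have hσWJ : ∀ c, σI (WJ c) = WI c := by
    intro c
    simp only [hWI, hWJ, map_sum, hσE, neg_neg]
  have hWdvd : ∀ c, π ^ (3 * J) ∣ WI c := by
    intro c
    rcases hgood c with h0 | h3
    · have h1 : WI c = 0 := by
        apply hinj
        rw [hιWI, h0, map_zero]
      rw [h1]
      exact dvd_zero _
    · have hprod : WI c * WJ c = (p : 𝓞 K) ^ 3 := by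
        apply hinj
        rw [map_mul, hιWI, hιWJ, Complex.mul_conj, Complex.normSq_eq_norm_sq, h3, map_pow, map_natCast]
        push_cast
        rfl
      obtain ⟨i, hi⟩ := Pool.Agent.H56.RDS.assoc_pow (k := 0) K hz (WI c) (WJ c) 3 hprod
      obtain ⟨i', hi'⟩ := Pool.Agent.H56.RDS.assoc_pow (k := 0) K hz (WJ c) (WI c) 3
        (by rw [mul_comm]; exact hprod)
      have h4 : i' ≤ i := by
        have h5 : π ^ i' ∣ σI (WJ c) := hσdvd i' _ hi'.symm.dvd
        rw [hσWJ] at h5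
        exact (pow_dvd_pow_iff hπprime.ne_zero hπprime.not_isUnit).mp (h5.trans hi.dvd)
      have h5 : π ^ (2 * J * 3) ∣ π ^ (i + i') := by
        rw [pow_mul, pow_add]
        exact (hpassoc.pow_pow (n := 3)).symm.dvd.trans (hprod ▸ (hi.mul_mul hi').dvd)
      have h6 := (pow_dvd_pow_iff hπprime.ne_zero hπprime.not_isUnit).mp h5
      exact (pow_dvd_pow _ (by omega)).trans hi.symm.dvd
  -- the rows
  set GI : ZMod p → 𝓞 K := fun x => ∑ y, E (f y x + t * y) with hGI
  have hGsum : ∀ x, (p : 𝓞 K) * GI x = ∑ c, WI c * E (-(c * x)) := by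
    intro x
    apply hinj
    rw [map_mul, map_natCast, map_sum]
    simp only [map_mul, hιWI, hιE, hGI, map_sum]
    unfold W
    have h1 : ∀ c : ZMod p, (∑ y, ∑ x', e (f y x' + t * y + c * x')) * e (-(c * x))
        = ∑ y, ∑ x', e (f y x' + t * y) * e (c * (x' - x)) := by
      intro c
      rw [Finset.sum_mul]
      refine Finset.sum_congr rfl fun y _ => ?_
      rw [Finset.sum_mul]
      refine Finset.sum_congr rfl fun x' _ => ?_
      rw [← e_add, ← e_add]
      congr 1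
      ring
    rw [Finset.sum_congr rfl (fun c _ => h1 c), Finset.sum_comm, Finset.mul_sum]
    refine Finset.sum_congr rfl fun y _ => ?_
    rw [Finset.sum_comm]
    have h2 : ∀ x' : ZMod p, ∑ c : ZMod p, e (f y x' + t * y) * e (c * (x' - x))
        = if x' = x then (p : ℂ) * e (f y x + t * y) else 0 := by
      intro x'
      rw [← Finset.mul_sum, e_sum]
      by_cases hx : x' = x
      · rw [if_pos hx, if_pos (sub_eq_zero.mpr hx), hx, mul_comm]
      · rw [if_neg hx, if_neg (sub_ne_zero.mpr hx), mul_zero]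
    rw [Finset.sum_congr rfl (fun x' _ => h2 x'), Finset.sum_ite_eq', if_pos (Finset.mem_univ _)]
  have hcancel : ∀ (r : ℕ) (α : 𝓞 K), π ^ (2 * J + r) ∣ (p : 𝓞 K) * α → π ^ r ∣ α := by
    intro r α h
    have h1 : π ^ (2 * J) * π ^ r ∣ π ^ (2 * J) * α := by
      rw [← pow_add]
      exact h.trans (hpassoc.mul_right α).dvd
    exact (mul_dvd_mul_iff_left (pow_ne_zero _ hπprime.ne_zero)).mp h1
  have hG1 : ∀ x, π ^ J ∣ GI x := by
    intro x
    apply hcancel
    rw [hGsum]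
    refine Finset.dvd_sum fun c _ => ?_
    refine Dvd.dvd.mul_right ?_ _
    rw [show 2 * J + J = 3 * J by ring]
    exact hWdvd c
  have hEdvd : ∀ a b, π ∣ E a - E b := by
    intro a b
    have h1 : ∀ a, π ∣ E a - 1 := by
      intro a
      have := sub_dvd_pow_sub_pow θ 1 a.val
      rwa [one_pow] at this
    have h2 : E a - E b = (E a - 1) - (E b - 1) := by ring
    rw [h2]
    exact dvd_sub (h1 a) (h1 b)
  have hG2 : ∀ x x', π ^ (J + 1) ∣ GI x - GI x' := by
    intro x x'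
    apply hcancel
    rw [mul_sub, hGsum, hGsum, ← Finset.sum_sub_distrib]
    refine Finset.dvd_sum fun c _ => ?_
    rw [← mul_sub, show 2 * J + (J + 1) = 3 * J + 1 by ring, pow_succ]
    exact mul_dvd_mul (hWdvd c) (hEdvd _ _)
  -- back to polynomials
  set P : ZMod p → ℤ[X] := fun x => ∑ y, X ^ (f y x + t * y).val with hP
  have hPG : ∀ x, aeval θ (P x) = GI x := by
    intro x
    simp only [hP, hGI, hE, map_sum, map_pow, aeval_X]
  have hPmap : ∀ x, (P x).map (Int.castRingHom (ZMod p)) = ∑ y, X ^ (f y x + t * y).val := by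
    intro x
    simp only [hP, Polynomial.map_sum, Polynomial.map_pow, Polynomial.map_X]
  have hev : ∀ x i, eval 1 ((Tl (ZMod p) ^ i) ((P x).map (Int.castRingHom (ZMod p))))
      = ∑ y, (f y x + t * y) ^ i := by
    intro x i
    rw [hPmap, eval_sum_pow]
    refine Finset.sum_congr rfl fun y _ => ?_
    rw [ZMod.natCast_zmod_val]
  constructor
  · intro x j hj
    rw [← hev]
    refine eval_Tl_pow j J hj _ (dvd_mod K hz (P x) J (by omega) ?_)
    rw [← hθ, hPG]
    exact hG1 x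
  · intro x x'
    have h1 : (X - 1) ^ (J + 1) ∣ (P x - P x').map (Int.castRingHom (ZMod p)) := by
      refine dvd_mod K hz (P x - P x') (J + 1) (by omega) ?_
      rw [← hθ, map_sub, hPG, hPG]
      exact hG2 x x'
    have h2 := eval_Tl_pow J (J + 1) (Nat.lt_succ_self J) _ h1
    rw [Polynomial.map_sub, map_sub, eval_sub, hev, hev] at h2
    exact sub_eq_zero.mp h2

end aux

/-- VAL: Walsh coefficients divisible by a power of the prime element give vanishing power sums -/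
theorem val : VAL := by
  intro p hp hp2 f t h
  have h1 : @IsCyclotomicExtension {p ^ (0 + 1)} ℚ (CyclotomicField (p ^ (0 + 1)) ℚ) _ _
      (CyclotomicField.algebra _ _) := inferInstance
  have h2 : (CyclotomicField.algebra (p ^ (0 + 1)) ℚ :
      Algebra ℚ (CyclotomicField (p ^ (0 + 1)) ℚ)) = DivisionRing.toRatAlgebra :=
    Subsingleton.elim _ _
  rw [h2] at h1
  exact val_aux (CyclotomicField (p ^ (0 + 1)) ℚ) hp2 f t h

end Pool.Agent.H36.R3
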